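import Mathlib
import Pool.Agent.L7h2.HT.Fin

/-!
# Elements with the same lower elements

Let `A` be a set of `k + 1 ≥ 2` elements of a finite poset which have the same lower elements (or the same
upper elements), each of them incomparable to at most `N` elements. Then the balance constant is at least
`δ` for every `δ < 1/2` with `c = (1 - δ)² / 2 - δ² ≥ 0` and `N + 1 < k (1 - δ) + 2 (√c k + √(1/2))²`.

For `δ = β` the right side is larger than `0.18 k² + 1.5 k + 1`, for `δ` slightly above `1/3` it is
larger than `0.22 k² + 1.6 k + 1`.

Proof. Let all pairs be unbalanced for `δ`. Let `x`, `y` have the same lower elements, `t` the probability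
that `y` comes immediately after `x`, and `q < δ` the probability that `y` comes before `x`. Moving `y` down
shows that every positive gap has probability at most `t`, so the mean of the positive part of the gap is
at least `p² / (2 t) + p / 2` with `p = 1 - q`; and `t` times the mean of the negative part is at most `q²`
(a consequence of the Brunn–Minkowski inequality; the error term is removed by long chains below the
poset). So the mean places differ by at least `c / t + (1 - δ) / 2`. The sum of the `t`s of consecutive
elements of `A` is at most one, because `t` is at most the probability that `y` has the first possible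
place. So the last element of `A` has mean distance at least `k (1 - δ) / 2 + (√c k + √(1/2))² - 1/2` from
its lower elements; but this distance is at most `N / 2`.
-/

set_option autoImplicit false

namespace Pool.Agent.Results.MP_33fb9b_co.EqualLowerSets

open Pool.Agent.H13R3.WB Pool.Agent.Y491.BF.H2

theorem result (P : Type) [Fintype P] [PartialOrder P] (δ : ℝ) (hδ : δ < 1 / 2)
    (hc : 0 ≤ (1 - δ) ^ 2 / 2 - δ ^ 2) (A : Finset P) (k : ℕ) (hk : 1 ≤ k) (hA : A.card = k + 1)
    (hs : (∀ x ∈ A, ∀ y ∈ A, ∀ w, w < x ↔ w < y) ∨ ∀ x ∈ A, ∀ y ∈ A, ∀ w, x < w ↔ y < w)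
    (hN : ∀ z ∈ A, (Nat.card {w : P // ¬ w ≤ z ∧ ¬ z ≤ w} : ℝ) + 1 <
      k * (1 - δ) + 2 * (√((1 - δ) ^ 2 / 2 - δ ^ 2) * k + √(1 / 2)) ^ 2) :
    δ ≤ balance P := by
  classical
  have e : ∀ z : P, Nat.card {w : P // ¬ w ≤ z ∧ ¬ z ≤ w} = incN P z := fun z => by
    rw [Nat.card_eq_fintype_card, Fintype.card_subtype]
    unfold incN
    congr
  simp only [e] at hN
  rcases hs with hs | hs
  · exact equal_lower P δ hδ hc A k hk hA hs hN
  · exact equal_upper P δ hδ hc A k hk hA hs hN

end Pool.Agent.Results.MP_33fb9b_co.EqualLowerSets
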