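import Pool.Agent.L7h2.LP.Main
import Pool.Agent.L7h6.GB.FlexWalk

set_option autoImplicit false

/-!
# The number of all `i ≤ x` with `p_i + 2 (a i + N)` prime, for almost all slopes `a` and almost all multiples `N` of the
# integers whose digits form correctly nested words

Let some pairs of digits (opening, closing) in base `b` match, and let some other digits be neutral. Consider the integers `v`
whose `k` digits form a correctly nested word, for instance a Dyck word. These sets of integers are sparse in general, and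
they cannot be described by a finite automaton or by independent digits.

Method: the asymptotic formula for the primes in `N + S`, `S` an arbitrary dense set, `N` a multiple of a random integer with
exchangeable blocks of digits, is `Pool.Agent.N625.PT.law2` (starting files); the nested words have exchangeable blocks
(`Pool.Agent.L7h6.GB.nested_flex`, of our team).
-/

namespace Pool.Agent.Results.MP_3aaefc_nt.NestedWordLinearPolynomials

open Finset

/-- the `n`-th prime, `n ≥ 1` -/
noncomputable def p (n : ℕ) : ℕ := Nat.nth Nat.Prime (n - 1)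

/-- the product of `1 - 1/q` over the primes `q ≤ y` -/
noncomputable def V (y : ℕ) : ℝ := ∏ q ∈ (Icc 1 y).filter Nat.Prime, (1 - 1 / (q : ℝ))

/-- the multiple of the product of the primes `≤ y` given by the integers `h` and `c + κ v` -/
def Nv (y h : ℕ) (c κ : ℤ) (v : ℕ) : ℤ := ((primorial y * h : ℕ) : ℤ) * (c + κ * v)

/-- the `1 ≤ i ≤ x` such that `p_i + 2 P(i)` is prime, for the linear polynomial `P(i) = a i + n` -/
noncomputable def Good (a x : ℕ) (n : ℤ) : Finset ℕ := (Icc 1 x).filter (fun i : ℕ => ((p i : ℤ) + 2 * (a * i + n)).toNat.Prime)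

/-- the `1 ≤ i ≤ x` such that `p_i + 2 a i` is prime to `D` -/
noncomputable def Adm (a D x : ℕ) : Finset ℕ := (Icc 1 x).filter (fun i : ℕ => (p i + 2 * a * i).Coprime D)

/-- The formula for the polynomial `P(i) = a i + n`, `n = h M (c + κ v)`, `M` the product of the primes `≤ y`: if `n > 0`, the
number of all `i ≤ x` with `p_i + 2 P(i)` prime differs from `E` by at most `ε E`, where `E` is the number of the `i ≤ x`
with `p_i + 2 a i` prime to `M h`, divided by `V y log Z`. -/
def Formula (ε Z : ℝ) (y x : ℕ) (c κ : ℤ) (v a h : ℕ) : Prop :=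
  0 < Nv y h c κ v → |((Good a x (Nv y h c κ v)).card : ℝ) - (Adm a (primorial y * h) x).card / (V y * Real.log Z)| ≤
    ε * ((Adm a (primorial y * h) x).card / (V y * Real.log Z))

open Classical in
/-- The formula holds for all but at most `ε (A + 1) H` of the pairs `(a, h)`, `0 ≤ a ≤ A`, `1 ≤ h ≤ H`. -/
def AlmostAll (ε Z : ℝ) (y x A H : ℕ) (c κ : ℤ) (v : ℕ) : Prop :=
  (((range (A + 1) ×ˢ Icc 1 H).filter (fun z => ¬ Formula ε Z y x c κ v z.1 z.2)).card : ℝ) ≤ ε * ((A + 1) * H)

/-- `P` is a set of pairs of an opening digit and a closing digit which match each other, `E` is a set of neutral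
digits; the digits are smaller than `b`, no digit plays two of the three roles, and there is at least one pair.
(An opening digit can match several closing digits, and conversely.) -/
structure Alphabet (b : ℕ) (P : Finset (ℕ × ℕ)) (E : Finset ℕ) : Prop where
  lt : ∀ p ∈ P, p.1 < b ∧ p.2 < b
  ne : ∀ p ∈ P, ∀ p' ∈ P, p.1 ≠ p'.2
  neutral : ∀ a ∈ E, a < b ∧ ∀ p ∈ P, a ≠ p.1 ∧ a ≠ p.2
  nonempty : P.Nonempty

/-- The correctly nested words: the empty word; a neutral digit followed by a correctly nested word; and `o u c w`,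
where `u` and `w` are correctly nested words and the opening digit `o` matches the closing digit `c`. -/
inductive Balanced (P : Finset (ℕ × ℕ)) (E : Finset ℕ) : List ℕ → Prop
  | nil : Balanced P E []
  | neutral (a : ℕ) (w : List ℕ) : a ∈ E → Balanced P E w → Balanced P E (a :: w)
  | pair (o c : ℕ) (u w : List ℕ) : (o, c) ∈ P → Balanced P E u → Balanced P E w → Balanced P E (o :: (u ++ c :: w))

open Classical in
/-- The integers `v < b ^ k` whose `k` digits in base `b`, from the most significant to the least significant one (the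
digit number `i`, `0 ≤ i < k`, from the left is `v / b ^ (k - 1 - i) % b`), form a correctly nested word. -/
noncomputable def brackets (b : ℕ) (P : Finset (ℕ × ℕ)) (E : Finset ℕ) (k : ℕ) : Finset ℕ :=
  (range (b ^ k)).filter fun v => Balanced P E ((List.range k).map fun i => v / b ^ (k - 1 - i) % b)

lemma bal_iff (P : Finset (ℕ × ℕ)) (E : Finset ℕ) (w : List ℕ) : Balanced P E w ↔ Pool.Agent.N625.DY.Balanced P E w := by
  constructor
  · intro h
    induction h with
    | nil => exact .nil
    | neutral a w h1 _ ih => exact .neutral a w h1 ih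
    | pair o c u w h1 _ _ ih1 ih2 => exact .pair o c u w h1 ih1 ih2
  · intro h
    induction h with
    | nil => exact .nil
    | neutral a w h1 _ ih => exact .neutral a w h1 ih
    | pair o c u w h1 _ _ ih1 ih2 => exact .pair o c u w h1 ih1 ih2

lemma brackets_eq (b : ℕ) (P : Finset (ℕ × ℕ)) (E : Finset ℕ) (k : ℕ) :
    brackets b P E k = Pool.Agent.N625.DY.brackets b P E k := by
  classical
  unfold brackets Pool.Agent.N625.DY.brackets Pool.Agent.N625.DY.word
  ext v
  rw [mem_filter, mem_filter, bal_iff]

open Classical in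
/-- Let the matching pairs `P` of digits and the neutral digits `E` in base `b` be fixed, let `k` be large, let `y` be between
`θ log k` and `K₁ log k` (`θ > 0` is arbitrary), `M` the product of the primes `≤ y`, `|c| ≤ B b ^ k`, let `x` be an integer
with `b ^ k ≤ x k ^ C`, `x ≤ b ^ k k ^ C`, and `A, H ≤ k ^ J`. For `a ≤ A`, `1 ≤ h ≤ H` let
`E_{a,h} = #{i ≤ x: p_i + 2 a i prime to M h} / (V y log b ^ k)`; this set has at least `⌊x / (M h)⌋` elements. For all the
integers `v` whose `k` digits form a correctly nested word, with the exception of a proportion of at most `ε` of them, all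
but at most `ε (A + 1) H` of the pairs `(a, h)`, `0 ≤ a ≤ A`, `1 ≤ h ≤ H`, have the property: if `N_h = h M (c + κ v) > 0`,
then the number of ALL `i ≤ x` such that `p_i + 2 P(i)` is prime for the polynomial `P(i) = a i + N_h` differs from `E_{a,h}`
by at most `ε E_{a,h}`. -/
theorem result (b : ℕ) (P : Finset (ℕ × ℕ)) (E : Finset ℕ) (hA : Alphabet b P E) (κ : ℤ) (hκ : κ ≠ 0)
    (B J C K₁ : ℕ) (θ : ℝ) (hθ : 0 < θ) (ε : ℝ) (hε : 0 < ε) (hε1 : ε ≤ 1) :
    ∃ k₀ : ℕ, ∀ k : ℕ, k₀ ≤ k →
    ∀ y : ℕ, θ * Real.log k ≤ y → y ≤ K₁ * Real.log k → ∀ c : ℤ, |c| ≤ B * (b : ℤ) ^ k →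
    ∀ A H : ℕ, A ≤ k ^ J → H ≤ k ^ J → ∀ x : ℕ, b ^ k ≤ x * k ^ C → x ≤ b ^ k * k ^ C →
      (∀ a h : ℕ, x / (primorial y * h) ≤ (Adm a (primorial y * h) x).card) ∧
      (((brackets b P E k).filter fun v => ¬ AlmostAll ε ((b : ℝ) ^ k) y x A H c κ v).card : ℝ) ≤
        ε * (brackets b P E k).card := by
  have hA' : Pool.Agent.N625.DY.Alphabet b P E := ⟨hA.lt, hA.ne, hA.neutral, hA.nonempty⟩
  have hb := Pool.Agent.N625.DY.two_le hA'
  have hbe := Pool.Agent.N625.DY.beta_ge hA'
  obtain ⟨T, k₁, hflex⟩ := Pool.Agent.L7h6.GB.nested_flex hA'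
  obtain ⟨k₀, h0⟩ := Pool.Agent.L7h2.LP.main b 4 hb (by norm_num)
    (1 / Pool.Agent.N625.DY.beta P E ^ 4) (by positivity)
    (by rw [div_le_one (by positivity)]; exact one_le_pow₀ (by linarith)) T κ hκ B J C K₁ θ hθ ε hε hε1
  refine ⟨k₀ + k₁, fun k hk y hy1 hy2 c hc A H hA hH x hx1 hx2 => ?_⟩
  simp only [brackets_eq]
  by_cases hke : Even k ∨ E.Nonempty
  · obtain ⟨h1, h2⟩ := h0 k (by omega) _ (hflex k (by omega) hke) y hy1 hy2 c hc A H hA hH x hx1 hx2
    refine ⟨h1, ?_⟩
    rw [Pool.Agent.L7h6.GB.brackets_eq hA']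
    have hpos : 0 < (Pool.Agent.N625.GW.walks b (Pool.Agent.N625.DY.step P E) k [] []).card := by
      rw [← Pool.Agent.L7h6.GB.brackets_eq hA']
      exact Pool.Agent.N625.DY.card_pos_of hA' k hke
    have h3 := Pool.Agent.L7h6.GB.pr_count k _ _ hpos _ _ h2
    refine le_trans ?_ (h3.trans (le_of_eq (mul_comm _ _)))
    rw [Nat.cast_le]
    apply card_le_card
    intro v hv
    rw [mem_filter] at hv ⊢
    refine ⟨hv.1, fun hcon => hv.2 ?_⟩
    unfold AlmostAll Formula
    rw [Real.log_pow]
    convert hcon using 3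
    ext z
    simp only [mem_filter]
    exact Iff.rfl
  · refine ⟨fun a h => Pool.Agent.L7h2.LP.adm_card a _ x, ?_⟩
    rw [Pool.Agent.N625.DY.br_empty k hke]
    simp

end Pool.Agent.Results.MP_3aaefc_nt.NestedWordLinearPolynomials
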