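import Pool.Agent.L7h2.LP.Main
import Pool.Agent.L7h6.GB.FlexWalk

set_option autoImplicit false

/-!
# The number of all `i ≤ x` with `p_i + 2 (a i + N)` prime, for almost all slopes `a` and almost all multiples `N` of the
# integers whose digits label walks in a graph

Let the digits in base `b` label the edges of a (finite or infinite) symmetric graph, such that the edges with different
labels which start at a vertex are different and at least two edges start at every vertex; for instance the Cayley graph of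
any finitely generated group (the digits are the generators). Consider the integers `v` whose `k` digits are the labels of
a walk from the vertex `x₀` to the vertex `y₀`, for instance of a closed walk, that is, a word in the generators which is
trivial in the group. These sets of integers are in general sparse (they have `b ^ (k (1 - δ))` elements below `b ^ k`), and
they cannot be described by a finite automaton or by independent digits.

Method: the asymptotic formula for the primes in `N + S`, `S` an arbitrary dense set, `N` a multiple of a random integer with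
exchangeable blocks of digits, is `Pool.Agent.N625.PT.law2` (starting files); the walks have exchangeable blocks
(`Pool.Agent.L7h6.GB.walk_flex`, of our team).
-/

namespace Pool.Agent.Results.MP_3aaefc_nt.WalkLinearPolynomials

open Finset

/-- the `n`-th prime, `n ≥ 1` -/
noncomputable def p (n : ℕ) : ℕ := Nat.nth Nat.Prime (n - 1)

/-- the product of `1 - 1/q` over the primes `q ≤ y` -/
noncomputable def V (y : ℕ) : ℝ := ∏ q ∈ (Icc 1 y).filter Nat.Prime, (1 - 1 / (q : ℝ))

/-- the multiple of the product of the primes `≤ y` given by the integers `h` and `c + κ v` -/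
def Nv (y h : ℕ) (c κ : ℤ) (v : ℕ) : ℤ := ((primorial y * h : ℕ) : ℤ) * (c + κ * v)

/-- the `1 ≤ i ≤ x` such that `p_i + 2 P(i)` is prime, for the linear polynomial `P(i) = a i + n` -/
noncomputable def Good (a x : ℕ) (n : ℤ) : Finset ℕ := (Icc 1 x).filter (fun i : ℕ => ((p i : ℤ) + 2 * (a * i + n)).toNat.Prime)

/-- the `1 ≤ i ≤ x` such that `p_i + 2 a i` is prime to `D` -/
noncomputable def Adm (a D x : ℕ) : Finset ℕ := (Icc 1 x).filter (fun i : ℕ => (p i + 2 * a * i).Coprime D)

/-- The formula for the polynomial `P(i) = a i + n`, `n = h M (c + κ v)`, `M` the product of the primes `≤ y`: if `n > 0`, the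
number of all `i ≤ x` with `p_i + 2 P(i)` prime differs from `E` by at most `ε E`, where `E` is the number of the `i ≤ x`
with `p_i + 2 a i` prime to `M h`, divided by `V y log Z`. -/
def Formula (ε Z : ℝ) (y x : ℕ) (c κ : ℤ) (v a h : ℕ) : Prop :=
  0 < Nv y h c κ v → |((Good a x (Nv y h c κ v)).card : ℝ) - (Adm a (primorial y * h) x).card / (V y * Real.log Z)| ≤
    ε * ((Adm a (primorial y * h) x).card / (V y * Real.log Z))

open Classical in
/-- The formula holds for all but at most `ε (A + 1) H` of the pairs `(a, h)`, `0 ≤ a ≤ A`, `1 ≤ h ≤ H`. -/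
def AlmostAll (ε Z : ℝ) (y x A H : ℕ) (c κ : ℤ) (v : ℕ) : Prop :=
  (((range (A + 1) ×ˢ Icc 1 H).filter (fun z => ¬ Formula ε Z y x c κ v z.1 z.2)).card : ℝ) ≤ ε * ((A + 1) * H)

/-- The digits `a < b` act on the set `X` of the vertices: an edge with the label `a` leads from `x` to `y` if
`δ x a = some y` (at most one edge with the label `a` starts at `x`). The number of the edges from `x` to `y` equals the
number of the edges from `y` to `x`, and at least two edges start at every vertex. The graph may be infinite. -/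
structure Graph {X : Type} (b : ℕ) (δ : X → ℕ → Option X) : Prop where
  symm : ∀ x y : X, {a : ℕ | a < b ∧ δ x a = some y}.ncard = {a : ℕ | a < b ∧ δ y a = some x}.ncard
  two : ∀ x : X, ∃ a a' : ℕ, a < a' ∧ a' < b ∧ (δ x a).isSome ∧ (δ x a').isSome

open Classical in
/-- The integers `v < b ^ k` whose `k` digits in base `b`, from the most significant to the least significant one (the
digit number `i`, `0 ≤ i < k`, from the left is `v / b ^ (k - 1 - i) % b`), are the labels of a walk from `x` to `y`. -/
noncomputable def walks {X : Type} (b : ℕ) (δ : X → ℕ → Option X) (k : ℕ) (x y : X) : Finset ℕ :=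
  (range (b ^ k)).filter fun v =>
    ((List.range k).map fun i => v / b ^ (k - 1 - i) % b).foldl (fun s a => s.bind fun z => δ z a) (some x) = some y

open Classical in
/-- Let `δ` be a graph whose edges are labelled with the digits in base `b`, let `x₀` be a vertex, and let `ρ > 0` be such
that there are at most `ρ ^ (2 n)` closed walks of the length `2 n` at `x₀`, for all `n`. Let `k` be large, let `y₀` be a
vertex such that the number of the walks of the length `k` from `x₀` to `y₀` is at least `ρ ^ k / k ^ D`, let `y` be between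
`θ log k` and `K₁ log k` (`θ > 0` is arbitrary), `M` the product of the primes `≤ y`, `|c| ≤ B b ^ k`, let `x` be an integer
with `b ^ k ≤ x k ^ C`, `x ≤ b ^ k k ^ C`, and `A, H ≤ k ^ J`. For `a ≤ A`, `1 ≤ h ≤ H` let
`E_{a,h} = #{i ≤ x: p_i + 2 a i prime to M h} / (V y log b ^ k)`; this set has at least `⌊x / (M h)⌋` elements. For all the
integers `v` whose `k` digits are the labels of a walk from `x₀` to `y₀`, with the exception of a proportion of at most `ε` of
them, all but at most `ε (A + 1) H` of the pairs `(a, h)`, `0 ≤ a ≤ A`, `1 ≤ h ≤ H`, have the property: if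
`N_h = h M (c + κ v) > 0`, then the number of ALL `i ≤ x` such that `p_i + 2 P(i)` is prime for the polynomial
`P(i) = a i + N_h` differs from `E_{a,h}` by at most `ε E_{a,h}`. -/
theorem result (b : ℕ) (X : Type) (δ : X → ℕ → Option X) (hG : Graph b δ) (x₀ : X) (ρ : ℝ) (hρ : 0 < ρ)
    (hR : ∀ n : ℕ, ((walks b δ (2 * n) x₀ x₀).card : ℝ) ≤ ρ ^ (2 * n)) (D : ℕ) (κ : ℤ) (hκ : κ ≠ 0)
    (B J C K₁ : ℕ) (θ : ℝ) (hθ : 0 < θ) (ε : ℝ) (hε : 0 < ε) (hε1 : ε ≤ 1) :
    ∃ k₀ : ℕ, ∀ k : ℕ, k₀ ≤ k → ∀ y₀ : X, ρ ^ k / (k : ℝ) ^ D ≤ (walks b δ k x₀ y₀).card →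
    ∀ y : ℕ, θ * Real.log k ≤ y → y ≤ K₁ * Real.log k → ∀ c : ℤ, |c| ≤ B * (b : ℤ) ^ k →
    ∀ A H : ℕ, A ≤ k ^ J → H ≤ k ^ J → ∀ x : ℕ, b ^ k ≤ x * k ^ C → x ≤ b ^ k * k ^ C →
      (∀ a h : ℕ, x / (primorial y * h) ≤ (Adm a (primorial y * h) x).card) ∧
      (((walks b δ k x₀ y₀).filter fun v => ¬ AlmostAll ε ((b : ℝ) ^ k) y x A H c κ v).card : ℝ) ≤
        ε * (walks b δ k x₀ y₀).card := by
  have hG' : Pool.Agent.N625.GW.Graph b δ := ⟨hG.symm, hG.two⟩
  have hb := Pool.Agent.N625.GW.two_le hG' x₀
  have hρ2 := Pool.Agent.N625.GW.rho_two hG' hR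
  obtain ⟨k₀, h0⟩ := Pool.Agent.L7h2.LP.main b 2 hb (by norm_num) (1 / (2 * ρ ^ 2))
    (by positivity) (by rw [div_le_one (by positivity)]; linarith) (D + 1) κ hκ B J C K₁ θ hθ ε hε hε1
  refine ⟨k₀ + 2, fun k hk y₀ hy₀ y hy1 hy2 c hc A H hA hH x hx1 hx2 => ?_⟩
  have hk1 : (0 : ℝ) < (k : ℝ) ^ D := by
    have : (0 : ℝ) < k := by exact_mod_cast (by omega : 0 < k)
    positivity
  have hy' : ρ ^ k ≤ (k : ℝ) ^ D * (walks b δ k x₀ y₀).card := by
    rw [div_le_iff₀ hk1, mul_comm] at hy₀
    exact hy₀
  obtain ⟨h1, h2⟩ := h0 k (by omega) _ (Pool.Agent.L7h6.GB.walk_flex hG' x₀ ρ hρ hR D k (by omega) y₀ hy') y hy1 hy2 c hc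
    A H hA hH x hx1 hx2
  refine ⟨h1, ?_⟩
  have h3 := Pool.Agent.L7h6.GB.pr_count k x₀ y₀ (Pool.Agent.N625.GW.card_pos' hρ hy') _ _ h2

  refine le_trans ?_ (h3.trans (le_of_eq (mul_comm _ _)))
  rw [Nat.cast_le]
  apply card_le_card
  intro v hv
  rw [mem_filter] at hv ⊢
  refine ⟨hv.1, fun hcon => hv.2 ?_⟩
  unfold AlmostAll Formula
  rw [Real.log_pow]
  convert hcon using 3
  ext z
  simp only [mem_filter]
  exact Iff.rfl

end Pool.Agent.Results.MP_3aaefc_nt.WalkLinearPolynomials
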