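import Pool.Agent.L7h2.LP.Pair
import Pool.Agent.L7h6.GB.FlexWalk

set_option autoImplicit false

/-!
# The number of all `i ≤ x` with `p_i + 2 (a i + N)` prime, for EVERY slope `a` and almost all multiples `N` of the integers
# whose digits label walks in a graph, or form correctly nested words

The sets of integers (digits = labels of a walk from `x₀` to `y₀` in a finite or infinite symmetric graph, for instance words
in the generators of a group which are trivial in the group; or digits = a correctly nested word, for instance a Dyck word)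
are in general sparse (they have `b ^ (k (1 - δ))` elements below `b ^ k`), and they cannot be described by a finite
automaton or by independent digits.

Method: the asymptotic formula for the primes in `N + S`, `S` an arbitrary dense set, `N` a multiple of a random integer with
exchangeable blocks of digits, is `Pool.Agent.N625.PT.law2` (starting files); the walks and the nested words have
exchangeable blocks (`Pool.Agent.L7h6.GB.walk_flex`, `nested_flex`, of our team).
-/

namespace Pool.Agent.Results.MP_3aaefc_nt.WalksAndNestedWords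

open Finset

/-- the `n`-th prime, `n ≥ 1` -/
noncomputable def p (n : ℕ) : ℕ := Nat.nth Nat.Prime (n - 1)

/-- the product of `1 - 1/q` over the primes `q ≤ y` -/
noncomputable def V (y : ℕ) : ℝ := ∏ q ∈ (Icc 1 y).filter Nat.Prime, (1 - 1 / (q : ℝ))

/-- the multiple of the product of the primes `≤ y` given by the integers `h` and `c + κ v` -/
def Nv (y h : ℕ) (c κ : ℤ) (v : ℕ) : ℤ := ((primorial y * h : ℕ) : ℤ) * (c + κ * v)

/-- the `1 ≤ i ≤ x` such that `p_i + 2 P(i)` is prime, for the linear polynomial `P(i) = a i + n` -/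
noncomputable def Good (a x : ℕ) (n : ℤ) : Finset ℕ := (Icc 1 x).filter (fun i : ℕ => ((p i : ℤ) + 2 * (a * i + n)).toNat.Prime)

/-- the `1 ≤ i ≤ x` such that `p_i + 2 a i` is prime to `D` -/
noncomputable def Adm (a D x : ℕ) : Finset ℕ := (Icc 1 x).filter (fun i : ℕ => (p i + 2 * a * i).Coprime D)

/-- The formula for the polynomial `P(i) = a i + N`, `N = h M (c + κ v)`, `M` the product of the primes `≤ y`: if `N > 0`, the
number of all `i ≤ x` with `p_i + 2 P(i)` prime differs from `E` by at most `ε E`, where `E` is the number of the `i ≤ x`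
with `p_i + 2 a i` prime to `M h`, divided by `V y log Z`. -/
def Formula (ε Z : ℝ) (y x : ℕ) (c κ : ℤ) (v a h : ℕ) : Prop :=
  0 < Nv y h c κ v → |((Good a x (Nv y h c κ v)).card : ℝ) - (Adm a (primorial y * h) x).card / (V y * Real.log Z)| ≤
    ε * ((Adm a (primorial y * h) x).card / (V y * Real.log Z))

open Classical in
/-- The law for a set `W` of integers below `b ^ k`: let `y` be an integer between `θ log k` and `K₁ log k`, `|c| ≤ B b ^ k`,
`b ^ k ≤ x k ^ C`, `x ≤ b ^ k k ^ C`. Then for EVERY slope `a ≤ k ^ J` and every `1 ≤ h ≤ k ^ J` the formula holds for all the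
`v` in `W` with the exception of a proportion of at most `ε`. -/
def Law (b B J C K₁ : ℕ) (κ : ℤ) (θ ε : ℝ) (k : ℕ) (W : Finset ℕ) : Prop :=
  ∀ y : ℕ, θ * Real.log k ≤ y → y ≤ K₁ * Real.log k → ∀ c : ℤ, |c| ≤ B * (b : ℤ) ^ k →
    ∀ x : ℕ, b ^ k ≤ x * k ^ C → x ≤ b ^ k * k ^ C → ∀ a h : ℕ, a ≤ k ^ J → 1 ≤ h → h ≤ k ^ J →
      ((W.filter fun v => ¬ Formula ε ((b : ℝ) ^ k) y x c κ v a h).card : ℝ) ≤ ε * W.card

/-- The digits `a < b` act on the set `X` of the vertices: an edge with the label `a` leads from `x` to `y` if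
`δ x a = some y` (at most one edge with the label `a` starts at `x`). The number of the edges from `x` to `y` equals the
number of the edges from `y` to `x`, and at least two edges start at every vertex. The graph may be infinite. -/
structure Graph {X : Type} (b : ℕ) (δ : X → ℕ → Option X) : Prop where
  symm : ∀ x y : X, {a : ℕ | a < b ∧ δ x a = some y}.ncard = {a : ℕ | a < b ∧ δ y a = some x}.ncard
  two : ∀ x : X, ∃ a a' : ℕ, a < a' ∧ a' < b ∧ (δ x a).isSome ∧ (δ x a').isSome

open Classical in
/-- The integers `v < b ^ k` whose `k` digits in base `b`, from the most significant to the least significant one (the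
digit number `i`, `0 ≤ i < k`, from the left is `v / b ^ (k - 1 - i) % b`), are the labels of a walk from `x` to `y`. -/
noncomputable def walks {X : Type} (b : ℕ) (δ : X → ℕ → Option X) (k : ℕ) (x y : X) : Finset ℕ :=
  (range (b ^ k)).filter fun v =>
    ((List.range k).map fun i => v / b ^ (k - 1 - i) % b).foldl (fun s a => s.bind fun z => δ z a) (some x) = some y

/-- `P` is a set of pairs of an opening digit and a closing digit which match each other, `E` is a set of neutral
digits; the digits are smaller than `b`, no digit plays two of the three roles, and there is at least one pair.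
(An opening digit can match several closing digits, and conversely.) -/
structure Alphabet (b : ℕ) (P : Finset (ℕ × ℕ)) (E : Finset ℕ) : Prop where
  lt : ∀ p ∈ P, p.1 < b ∧ p.2 < b
  ne : ∀ p ∈ P, ∀ p' ∈ P, p.1 ≠ p'.2
  neutral : ∀ a ∈ E, a < b ∧ ∀ p ∈ P, a ≠ p.1 ∧ a ≠ p.2
  nonempty : P.Nonempty

/-- The correctly nested words: the empty word; a neutral digit followed by a correctly nested word; and `o u c w`,
where `u` and `w` are correctly nested words and the opening digit `o` matches the closing digit `c`. -/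
inductive Balanced (P : Finset (ℕ × ℕ)) (E : Finset ℕ) : List ℕ → Prop
  | nil : Balanced P E []
  | neutral (a : ℕ) (w : List ℕ) : a ∈ E → Balanced P E w → Balanced P E (a :: w)
  | pair (o c : ℕ) (u w : List ℕ) : (o, c) ∈ P → Balanced P E u → Balanced P E w → Balanced P E (o :: (u ++ c :: w))

open Classical in
/-- The integers `v < b ^ k` whose `k` digits in base `b`, from the most significant to the least significant one (the
digit number `i`, `0 ≤ i < k`, from the left is `v / b ^ (k - 1 - i) % b`), form a correctly nested word. -/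
noncomputable def brackets (b : ℕ) (P : Finset (ℕ × ℕ)) (E : Finset ℕ) (k : ℕ) : Finset ℕ :=
  (range (b ^ k)).filter fun v => Balanced P E ((List.range k).map fun i => v / b ^ (k - 1 - i) % b)

lemma bal_iff (P : Finset (ℕ × ℕ)) (E : Finset ℕ) (w : List ℕ) : Balanced P E w ↔ Pool.Agent.N625.DY.Balanced P E w := by
  constructor
  · intro h
    induction h with
    | nil => exact .nil
    | neutral a w h1 _ ih => exact .neutral a w h1 ih
    | pair o c u w h1 _ _ ih1 ih2 => exact .pair o c u w h1 ih1 ih2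
  · intro h
    induction h with
    | nil => exact .nil
    | neutral a w h1 _ ih => exact .neutral a w h1 ih
    | pair o c u w h1 _ _ ih1 ih2 => exact .pair o c u w h1 ih1 ih2

lemma brackets_eq (b : ℕ) (P : Finset (ℕ × ℕ)) (E : Finset ℕ) (k : ℕ) :
    brackets b P E k = Pool.Agent.N625.DY.brackets b P E k := by
  classical
  unfold brackets Pool.Agent.N625.DY.brackets Pool.Agent.N625.DY.word
  ext v
  rw [mem_filter, mem_filter, bal_iff]

/-- (1) WALKS. Let `δ` be a graph whose edges are labelled with the digits in base `b`, let `x₀` be a vertex, and let `ρ > 0` be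
such that there are at most `ρ ^ (2 n)` closed walks of the length `2 n` at `x₀`, for all `n`. For large `k` and all the
vertices `y₀` for which the number of the walks of the length `k` from `x₀` to `y₀` is at least `ρ ^ k / k ^ D`, the law holds
for the integers whose `k` digits are the labels of a walk from `x₀` to `y₀`.
(2) NESTED WORDS. Let the matching pairs `P` of digits and the neutral digits `E` in base `b` be fixed. For large `k`, the law
holds for the integers whose `k` digits form a correctly nested word.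
(3) MAIN TERM. For large `k`, `y ≤ K₁ log k`, `1 ≤ h ≤ k ^ J`, `b ^ k ≤ x k ^ C` and every `a`, the number `#Adm` of the
`i ≤ x` with `p_i + 2 a i` prime to `M h` is at least `⌊x / (M h)⌋`; and if `M h` divides the slope `a`, then
`(1 - ε) x ≤ #Adm ≤ x`, so the main term of the formula is `x / (V y log b ^ k)` up to the factor `1 - ε`. -/
theorem result :
    (∀ (b : ℕ) (X : Type) (δ : X → ℕ → Option X), Graph b δ → ∀ (x₀ : X) (ρ : ℝ), 0 < ρ →
      (∀ n : ℕ, ((walks b δ (2 * n) x₀ x₀).card : ℝ) ≤ ρ ^ (2 * n)) → ∀ (D : ℕ) (κ : ℤ), κ ≠ 0 →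
      ∀ (B J C K₁ : ℕ) (θ : ℝ), 0 < θ → ∀ ε : ℝ, 0 < ε → ε ≤ 1 → ∃ k₀ : ℕ, ∀ k : ℕ, k₀ ≤ k → ∀ y₀ : X,
        ρ ^ k / (k : ℝ) ^ D ≤ (walks b δ k x₀ y₀).card → Law b B J C K₁ κ θ ε k (walks b δ k x₀ y₀)) ∧
    (∀ (b : ℕ) (P : Finset (ℕ × ℕ)) (E : Finset ℕ), Alphabet b P E → ∀ κ : ℤ, κ ≠ 0 →
      ∀ (B J C K₁ : ℕ) (θ : ℝ), 0 < θ → ∀ ε : ℝ, 0 < ε → ε ≤ 1 → ∃ k₀ : ℕ, ∀ k : ℕ, k₀ ≤ k →
        Law b B J C K₁ κ θ ε k (brackets b P E k)) ∧
    (∀ b : ℕ, 2 ≤ b → ∀ (J C K₁ : ℕ) (ε : ℝ), 0 < ε → ∃ k₀ : ℕ, ∀ k : ℕ, k₀ ≤ k → ∀ y : ℕ, y ≤ K₁ * Real.log k →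
      ∀ x : ℕ, b ^ k ≤ x * k ^ C → ∀ h : ℕ, 1 ≤ h → h ≤ k ^ J → ∀ a : ℕ,
        x / (primorial y * h) ≤ (Adm a (primorial y * h) x).card ∧ (Adm a (primorial y * h) x).card ≤ x ∧
        (primorial y * h ∣ a → (1 - ε) * x ≤ (Adm a (primorial y * h) x).card)) := by
  classical
  refine ⟨?_, ?_, ?_⟩
  · intro b X δ hG x₀ ρ hρ hR D κ hκ B J C K₁ θ hθ ε hε hε1
    have hG' : Pool.Agent.N625.GW.Graph b δ := ⟨hG.symm, hG.two⟩
    have hb := Pool.Agent.N625.GW.two_le hG' x₀
    have hρ2 := Pool.Agent.N625.GW.rho_two hG' hR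
    obtain ⟨k₀, h0⟩ := Pool.Agent.L7h2.LP.pair b 2 hb (by norm_num) (1 / (2 * ρ ^ 2))
      (by positivity) (by rw [div_le_one (by positivity)]; linarith) (D + 1) κ hκ B J C K₁ θ hθ ε hε hε1
    refine ⟨k₀ + 2, fun k hk y₀ hy₀ y hy1 hy2 c hc x hx1 hx2 a h ha hh1 hh => ?_⟩
    have hk1 : (0 : ℝ) < (k : ℝ) ^ D := by
      have : (0 : ℝ) < k := by exact_mod_cast (by omega : 0 < k)
      positivity
    have hy' : ρ ^ k ≤ (k : ℝ) ^ D * (walks b δ k x₀ y₀).card := by
      rw [div_le_iff₀ hk1, mul_comm] at hy₀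
      exact hy₀
    have h2 := h0 k (by omega) _ (Pool.Agent.L7h6.GB.walk_flex hG' x₀ ρ hρ hR D k (by omega) y₀ hy') y hy1 hy2
      c hc x hx1 hx2 a h ha hh1 hh
    have h3 := Pool.Agent.L7h6.GB.pr_count k x₀ y₀ (Pool.Agent.N625.GW.card_pos' hρ hy')
      (fun v => Formula ε ((b : ℝ) ^ k) y x c κ v a h) ε (by
        refine le_trans (le_of_eq (sum_congr rfl fun v _ => ?_)) h2
        exact if_congr (by unfold Formula; rw [Real.log_pow]; exact Iff.rfl) rfl rfl)
    exact h3.trans (le_of_eq (mul_comm _ _))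
  · intro b P E hA κ hκ B J C K₁ θ hθ ε hε hε1
    have hA' : Pool.Agent.N625.DY.Alphabet b P E := ⟨hA.lt, hA.ne, hA.neutral, hA.nonempty⟩
    have hb := Pool.Agent.N625.DY.two_le hA'
    have hbe := Pool.Agent.N625.DY.beta_ge hA'
    obtain ⟨T, k₁, hflex⟩ := Pool.Agent.L7h6.GB.nested_flex hA'
    obtain ⟨k₀, h0⟩ := Pool.Agent.L7h2.LP.pair b 4 hb (by norm_num)
      (1 / Pool.Agent.N625.DY.beta P E ^ 4) (by positivity)
      (by rw [div_le_one (by positivity)]; exact one_le_pow₀ (by linarith)) T κ hκ B J C K₁ θ hθ ε hε hε1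
    refine ⟨k₀ + k₁, fun k hk y hy1 hy2 c hc x hx1 hx2 a h ha hh1 hh => ?_⟩
    simp only [brackets_eq]
    by_cases hke : Even k ∨ E.Nonempty
    · have h2 := h0 k (by omega) _ (hflex k (by omega) hke) y hy1 hy2 c hc x hx1 hx2 a h ha hh1 hh
      rw [Pool.Agent.L7h6.GB.brackets_eq hA']
      have hpos : 0 < (Pool.Agent.N625.GW.walks b (Pool.Agent.N625.DY.step P E) k [] []).card := by
        rw [← Pool.Agent.L7h6.GB.brackets_eq hA']
        exact Pool.Agent.N625.DY.card_pos_of hA' k hke
      have h3 := Pool.Agent.L7h6.GB.pr_count k _ _ hpos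
        (fun v => Formula ε ((b : ℝ) ^ k) y x c κ v a h) ε (by
          refine le_trans (le_of_eq (sum_congr rfl fun v _ => ?_)) h2
          exact if_congr (by unfold Formula; rw [Real.log_pow]; exact Iff.rfl) rfl rfl)
      exact h3.trans (le_of_eq (mul_comm _ _))
    · rw [Pool.Agent.N625.DY.br_empty k hke]
      simp
  · intro b hb J C K₁ ε hε
    obtain ⟨m, hm⟩ := exists_nat_ge (1 / ε)
    obtain ⟨k₃, h3⟩ := Pool.Agent.N625.PT.pow_le_pow_digits b hb (2 * K₁ + J + C + 1)
    refine ⟨max k₃ (max m 5), fun k hk y hy x hx h hh1 hh a => ⟨Pool.Agent.L7h2.LP.adm_card a _ x, ?_, ?_⟩⟩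
    · unfold Adm
      refine (card_filter_le _ _).trans ?_
      rw [Nat.card_Icc]
      omega
    · intro hdiv
      have b4 : 5 ≤ k := by omega
      have hkr : (5 : ℝ) ≤ k := by exact_mod_cast b4
      have hk3 := h3 k (by omega)
      have hbig : k ^ (2 * K₁ + J + 1) ≤ x := by
        have : k ^ (2 * K₁ + J + 1) * k ^ C ≤ x * k ^ C := by
          rw [← pow_add]
          have e : 2 * K₁ + J + 1 + C = 2 * K₁ + J + C + 1 := by ring
          rw [e]
          exact hk3.trans hx
        exact Nat.le_of_mul_le_mul_right this (by positivity)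
      have hDk : primorial y * h ≤ k ^ (2 * K₁ + J) :=
        Pool.Agent.N625.PT.mult_small K₁ J k y h (by omega) hy hh
      have h5 : primorial y * h * k ≤ x := by
        refine le_trans ?_ hbig
        rw [pow_succ]
        exact Nat.mul_le_mul_right _ hDk
      have h6 := Pool.Agent.L7h2.LP.log_nth_lt (primorial y * h) (Nat.mul_pos (primorial_pos y) hh1) x a hdiv
      have h7 : (x : ℝ) ≤ (Adm a (primorial y * h) x).card + ((primorial y * h : ℕ) : ℝ) := by exact_mod_cast h6
      have h8 : ((primorial y * h : ℕ) : ℝ) * k ≤ x := by exact_mod_cast h5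
      have h9 : 1 ≤ ε * k := by
        have e1 : (m : ℝ) ≤ k := by exact_mod_cast (by omega : m ≤ k)
        have e2 : 1 / ε ≤ k := hm.trans e1
        rwa [div_le_iff₀ hε, mul_comm] at e2
      have h10 : ((primorial y * h : ℕ) : ℝ) ≤ ε * x := by
        have e0 : (0 : ℝ) ≤ ((primorial y * h : ℕ) : ℝ) := Nat.cast_nonneg _
        calc ((primorial y * h : ℕ) : ℝ) ≤ ((primorial y * h : ℕ) : ℝ) * (ε * k) := le_mul_of_one_le_right e0 h9
          _ = ε * (((primorial y * h : ℕ) : ℝ) * k) := by ring
          _ ≤ ε * x := mul_le_mul_of_nonneg_left h8 hε.le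
      linarith

end Pool.Agent.Results.MP_3aaefc_nt.WalksAndNestedWords
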